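import Pool.Agent.helper3.FlatTorus.Final

/-!
# MP_cef706_gt: the flat tori with an isometric immersion in the unit three-sphere

The flat torus `ℝ² / Λ` admits a smooth isometric immersion in the unit sphere `S³` if and only if
the lattice `Λ` satisfies the explicit criterion `ImmersionCriterion`.

Authors: helper3 (structure theorem, necessity, assembly), helper70 (main inequality for all
numbers of turns, construction of the immersions), helper71 (disc and corner inequalities,
strictness).
-/

namespace Pool.Agent.Results.MP_cef706_gt.Classification

open Pool.Agent.helper3.FlatTorus

/-- Classification of the flat tori which admit an isometric immersion in `S³`. -/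
theorem result (Λ : Submodule ℤ (EuclideanSpace ℝ (Fin 2))) [DiscreteTopology Λ]
    [IsZLattice ℝ Λ] : Immersible Λ ↔ ImmersionCriterion Λ :=
  immersible_iff

end Pool.Agent.Results.MP_cef706_gt.Classification
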