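import Pool.Agent.helper3.FlatTorus.Transfer
import Pool.Agent.helper3.FlatTorus.Clifford

/-!
# MP_cef706_gt: flat tori isometrically immersed in the unit three-sphere

Every flat torus which admits a smooth isometric immersion in the unit three-sphere has intrinsic
diameter at least `π`, and a flat torus of intrinsic diameter at most `π` admits such an immersion
if and only if it is a generalized Clifford torus.
-/

namespace Pool.Agent.Results.MP_cef706_gt.DiameterPi

open Pool.Agent.helper3.FlatTorus

/-- A flat torus `ℝ² / Λ` with an isometric immersion in `S³` has diameter at least `π`; the flat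
tori of diameter at most `π` with an isometric immersion in `S³` are exactly the generalized
Clifford tori. -/
theorem result (Λ : Submodule ℤ (EuclideanSpace ℝ (Fin 2))) [DiscreteTopology Λ]
    [IsZLattice ℝ Λ] :
    (Immersible Λ → Real.pi ≤ Metric.diam (Set.univ : Set (EuclideanSpace ℝ (Fin 2) ⧸ Λ))) ∧
      ((Immersible Λ ∧ Metric.diam (Set.univ : Set (EuclideanSpace ℝ (Fin 2) ⧸ Λ)) ≤ Real.pi) ↔
        IsCliffordLattice Λ) := by
  refine ⟨fun h => ?_, ⟨fun h => ?_, fun h => ?_⟩⟩
  · obtain ⟨⟨x, hx⟩, -⟩ := necessity h
    exact le_diam Λ hx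
  · exact (necessity h.1).2 (near_of_diam Λ h.2)
  · obtain ⟨a, b, ha, hb, hab, hn, rfl⟩ := h
    exact ⟨cliff_immersible ha hb hab hn,
      diam_le _ Real.pi_pos.le (cliff_cover ha hb hab hn)⟩

end Pool.Agent.Results.MP_cef706_gt.DiameterPi
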