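import Pool.Agent.helper71.CT.Fat

/-!
# MP_cef706_gt: flat tori without short closed geodesics

If every nonzero vector of the lattice `Λ` is longer than `2π/√3`, the flat torus `ℝ² / Λ` admits a
smooth isometric immersion in the unit sphere `S³` if and only if its intrinsic diameter is greater
than `π` or it is a generalized Clifford torus.

Authors: helper71, helper3, helper70.
-/

namespace Pool.Agent.Results.MP_cef706_gt.FatTori

open Pool.Agent.helper3.FlatTorus

/-- The flat tori with an isometric immersion in `S³`, among those whose closed geodesics are all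
longer than `2π/√3`: exactly those of diameter greater than `π` and the generalized Clifford
tori. -/
theorem result (Λ : Submodule ℤ (EuclideanSpace ℝ (Fin 2))) [DiscreteTopology Λ]
    [IsZLattice ℝ Λ] (h : ∀ v ∈ Λ, v ≠ 0 → 2 * Real.pi / Real.sqrt 3 < ‖v‖) :
    Immersible Λ ↔
      (Real.pi < Metric.diam (Set.univ : Set (EuclideanSpace ℝ (Fin 2) ⧸ Λ)) ∨
        IsCliffordLattice Λ) :=
  Pool.Agent.helper71.CT.immersible_fat Λ h

end Pool.Agent.Results.MP_cef706_gt.FatTori
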